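import Mathlib

/-! # Supporting planes: the counting lemma -/

namespace Pool.Agent.RBP

open Finset

/-- If `i` lies above the segment from `k` to `l` for two planes through it, the planes agree. -/
theorem core_side {xi yi zi xk yk zk xl yl zl xk' yk' zk' xl' yl' zl' a b c a' b' c' : ℝ}
    (hi : a * xi + b * yi + c = zi) (hi' : a' * xi + b' * yi + c' = zi)
    (hk : a * xk + b * yk + c = zk) (hl : a * xl + b * yl + c = zl)
    (hk' : a' * xk' + b' * yk' + c' = zk') (hl' : a' * xl' + b' * yl' + c' = zl')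
    (uk : a' * xk + b' * yk + c' ≤ zk) (ul : a' * xl + b' * yl + c' ≤ zl)
    (uk' : a * xk' + b * yk' + c ≤ zk') (ul' : a * xl' + b * yl' + c ≤ zl')
    (h1 : xk < xi) (h2 : xi < xl) (h1' : xk' < xi) (h2' : xi < xl')
    (s : ℝ) (hs : s ≠ 0)
    (hu : 0 < s * ((xl - xk) * yi - ((xl - xi) * yk + (xi - xk) * yl)))
    (hu' : 0 < s * ((xl' - xk') * yi - ((xl' - xi) * yk' + (xi - xk') * yl'))) :
    a = a' ∧ b = b' ∧ c = c' := by
  have hA : 0 < xl - xi := by linarith
  have hB : 0 < xi - xk := by linarith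
  have hA' : 0 < xl' - xi := by linarith
  have hB' : 0 < xi - xk' := by linarith
  -- the difference at `k` and `l`
  have dk : (a' - a) * xk + (b' - b) * yk + (c' - c) ≤ 0 := by linarith
  have dl : (a' - a) * xl + (b' - b) * yl + (c' - c) ≤ 0 := by linarith
  have dk' : 0 ≤ (a' - a) * xk' + (b' - b) * yk' + (c' - c) := by linarith
  have dl' : 0 ≤ (a' - a) * xl' + (b' - b) * yl' + (c' - c) := by linarith
  have di : (a' - a) * xi + (b' - b) * yi + (c' - c) = 0 := by linarith
  set T := (xl - xk) * yi - ((xl - xi) * yk + (xi - xk) * yl) with hT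
  set T' := (xl' - xk') * yi - ((xl' - xi) * yk' + (xi - xk') * yl') with hT'
  have e1 : (xl - xi) * ((a' - a) * xk + (b' - b) * yk + (c' - c)) +
      (xi - xk) * ((a' - a) * xl + (b' - b) * yl + (c' - c)) = -((b' - b) * T) := by
    have : (xl - xk) * ((a' - a) * xi + (b' - b) * yi + (c' - c)) = 0 := by rw [di, mul_zero]
    rw [hT]
    linear_combination this
  have e2 : (xl' - xi) * ((a' - a) * xk' + (b' - b) * yk' + (c' - c)) +
      (xi - xk') * ((a' - a) * xl' + (b' - b) * yl' + (c' - c)) = -((b' - b) * T') := by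
    have : (xl' - xk') * ((a' - a) * xi + (b' - b) * yi + (c' - c)) = 0 := by rw [di, mul_zero]
    rw [hT']
    linear_combination this
  have f1 : 0 ≤ (b' - b) * T := by
    have g1 := mul_nonpos_of_nonneg_of_nonpos hA.le dk
    have g2 := mul_nonpos_of_nonneg_of_nonpos hB.le dl
    linarith
  have f2 : (b' - b) * T' ≤ 0 := by
    have g1 := mul_nonneg hA'.le dk'
    have g2 := mul_nonneg hB'.le dl'
    linarith
  have hb : b' - b = 0 := by
    rcases lt_or_gt_of_ne hs with hs0 | hs0
    · have t1 : T < 0 := by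
        by_contra hcon
        push Not at hcon
        nlinarith [mul_nonneg_of_nonpos_of_nonpos hs0.le (neg_nonpos.mpr hcon)]
      have t2 : T' < 0 := by
        by_contra hcon
        push Not at hcon
        nlinarith [mul_nonneg_of_nonpos_of_nonpos hs0.le (neg_nonpos.mpr hcon)]
      have g1 : b' - b ≤ 0 := by
        by_contra hcon
        push Not at hcon
        nlinarith [mul_pos hcon (neg_pos.mpr t1)]
      have g2 : 0 ≤ b' - b := by
        by_contra hcon
        push Not at hcon
        nlinarith [mul_pos (neg_pos.mpr hcon) (neg_pos.mpr t2)]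
      linarith
    · have t1 : 0 < T := by
        by_contra hcon
        push Not at hcon
        nlinarith [mul_nonneg hs0.le (neg_nonneg.mpr hcon)]
      have t2 : 0 < T' := by
        by_contra hcon
        push Not at hcon
        nlinarith [mul_nonneg hs0.le (neg_nonneg.mpr hcon)]
      have g1 : 0 ≤ b' - b := by
        by_contra hcon
        push Not at hcon
        nlinarith [mul_pos (neg_pos.mpr hcon) t1]
      have g2 : b' - b ≤ 0 := by
        by_contra hcon
        push Not at hcon
        nlinarith [mul_pos hcon t2]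
      linarith
  have e3 : (xl - xi) * ((a' - a) * xk + (b' - b) * yk + (c' - c)) +
      (xi - xk) * ((a' - a) * xl + (b' - b) * yl + (c' - c)) = 0 := by
    rw [e1, hb, zero_mul, neg_zero]
  have g1 : (xl - xi) * ((a' - a) * xk + (b' - b) * yk + (c' - c)) ≤ 0 :=
    mul_nonpos_of_nonneg_of_nonpos hA.le dk
  have g2 : (xi - xk) * ((a' - a) * xl + (b' - b) * yl + (c' - c)) ≤ 0 :=
    mul_nonpos_of_nonneg_of_nonpos hB.le dl
  have k0 : (xl - xi) * ((a' - a) * xk + (b' - b) * yk + (c' - c)) = 0 := by linarith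
  have l0 : (xi - xk) * ((a' - a) * xl + (b' - b) * yl + (c' - c)) = 0 := by linarith
  have k1 : (a' - a) * xk + (b' - b) * yk + (c' - c) = 0 := by
    rcases mul_eq_zero.mp k0 with h | h
    · exact absurd h hA.ne'
    · exact h
  have l1 : (a' - a) * xl + (b' - b) * yl + (c' - c) = 0 := by
    rcases mul_eq_zero.mp l0 with h | h
    · exact absurd h hB.ne'
    · exact h
  rw [hb, zero_mul, add_zero] at k1 l1
  have ha : a' - a = 0 := by
    have h0 : (a' - a) * (xl - xk) = 0 := by
      have : (a' - a) * (xl - xk) = ((a' - a) * xl + (c' - c)) - ((a' - a) * xk + (c' - c)) := by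
        ring
      rw [this, k1, l1, sub_zero]
    rcases mul_eq_zero.mp h0 with h | h
    · exact h
    · exfalso; linarith
  rw [ha, zero_mul, zero_add] at k1
  exact ⟨by linarith, by linarith, by linarith⟩

open Classical in
/-- The counting lemma: `n` points, `m` planes below them, no point of a plane between two
others in a line, at most two indices for a plane. -/
theorem core_count {ι κ : Type*} (I : Finset ι) (J : Finset κ)
    (X Y Z : ι → ℝ) (a b c : κ → ℝ)
    (hX : ∀ i ∈ I, ∀ k ∈ I, i ≠ k → X i ≠ X k)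
    (below : ∀ i ∈ I, ∀ j ∈ J, a j * X i + b j * Y i + c j ≤ Z i)
    (hnc : ∀ j ∈ J, ∀ i ∈ I, ∀ k ∈ I, ∀ l ∈ I, a j * X i + b j * Y i + c j = Z i →
      a j * X k + b j * Y k + c j = Z k → a j * X l + b j * Y l + c j = Z l →
      X k < X i → X i < X l →
      (X l - X k) * Y i - ((X l - X i) * Y k + (X i - X k) * Y l) ≠ 0)
    (hmult : ∀ S : Finset κ, S ⊆ J → (∀ j ∈ S, ∀ j' ∈ S, a j = a j' ∧ b j = b j' ∧ c j = c j') →
      S.card ≤ 2) :
    ∑ j ∈ J, (I.filter (fun i => a j * X i + b j * Y i + c j = Z i)).card ≤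
      2 * J.card + 4 * I.card := by
  -- middle incidences
  set Mid : ι → κ → Prop := fun i j => ∃ k ∈ I, ∃ l ∈ I,
    a j * X k + b j * Y k + c j = Z k ∧ a j * X l + b j * Y l + c j = Z l ∧ X k < X i ∧ X i < X l
    with hMid
  have h1 : ∀ j ∈ J, (I.filter (fun i => a j * X i + b j * Y i + c j = Z i)).card ≤
      2 + (I.filter (fun i => a j * X i + b j * Y i + c j = Z i ∧ Mid i j)).card := by
    intro j hj
    have h2 : (I.filter (fun i => a j * X i + b j * Y i + c j = Z i)).card =
        (I.filter (fun i => a j * X i + b j * Y i + c j = Z i ∧ ¬ Mid i j)).card +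
        (I.filter (fun i => a j * X i + b j * Y i + c j = Z i ∧ Mid i j)).card := by
      rw [← Finset.card_union_of_disjoint]
      · congr 1
        ext i
        simp only [Finset.mem_filter, Finset.mem_union]
        constructor
        · rintro ⟨h1, h2⟩
          by_cases h3 : Mid i j
          · exact Or.inr ⟨h1, h2, h3⟩
          · exact Or.inl ⟨h1, h2, h3⟩
        · rintro (⟨h1, h2, -⟩ | ⟨h1, h2, -⟩)
          · exact ⟨h1, h2⟩
          · exact ⟨h1, h2⟩
      · rw [Finset.disjoint_left]
        intro i hi hi'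
        rw [Finset.mem_filter] at hi hi'
        exact hi.2.2 hi'.2.2
    rw [h2]
    have h3 : (I.filter (fun i => a j * X i + b j * Y i + c j = Z i ∧ ¬ Mid i j)).card ≤ 2 := by
      by_contra hcon
      push Not at hcon
      obtain ⟨p, q, r, hp, hq, hr, hpq, hpr, hqr⟩ := Finset.two_lt_card_iff.mp hcon
      rw [Finset.mem_filter] at hp hq hr
      have npq := hX p hp.1 q hq.1 hpq
      have npr := hX p hp.1 r hr.1 hpr
      have nqr := hX q hq.1 r hr.1 hqr
      rcases lt_or_gt_of_ne npq with h | h <;> rcases lt_or_gt_of_ne npr with h' | h' <;>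
        rcases lt_or_gt_of_ne nqr with h'' | h''
      · exact hq.2.2 ⟨p, hp.1, r, hr.1, hp.2.1, hr.2.1, h, h''⟩
      · exact hr.2.2 ⟨p, hp.1, q, hq.1, hp.2.1, hq.2.1, h', h''⟩
      · exact absurd (h.trans (h''.trans h')) (lt_irrefl _)
      · exact hp.2.2 ⟨r, hr.1, q, hq.1, hr.2.1, hq.2.1, h', h⟩
      · exact hp.2.2 ⟨q, hq.1, r, hr.1, hq.2.1, hr.2.1, h, h'⟩
      · exact absurd (h'.trans (h''.trans h)) (lt_irrefl _)
      · exact hr.2.2 ⟨q, hq.1, p, hp.1, hq.2.1, hp.2.1, h'', h'⟩
      · exact hq.2.2 ⟨r, hr.1, p, hp.1, hr.2.1, hp.2.1, h'', h⟩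
    omega
  have h4 : ∑ j ∈ J, (I.filter (fun i => a j * X i + b j * Y i + c j = Z i ∧ Mid i j)).card =
      ∑ i ∈ I, (J.filter (fun j => a j * X i + b j * Y i + c j = Z i ∧ Mid i j)).card := by
    simp only [Finset.card_filter]
    exact Finset.sum_comm
  have h5 : ∀ i ∈ I, (J.filter (fun j => a j * X i + b j * Y i + c j = Z i ∧ Mid i j)).card ≤
      4 := by
    intro i hi
    set side : ℝ → κ → Prop := fun s j => ∃ k ∈ I, ∃ l ∈ I,
      a j * X k + b j * Y k + c j = Z k ∧ a j * X l + b j * Y l + c j = Z l ∧ X k < X i ∧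
      X i < X l ∧ 0 < s * ((X l - X k) * Y i - ((X l - X i) * Y k + (X i - X k) * Y l)) with hside
    have h6 : ∀ s : ℝ, s ≠ 0 →
        (J.filter (fun j => a j * X i + b j * Y i + c j = Z i ∧ side s j)).card ≤ 2 := by
      intro s hs
      apply hmult
      · exact Finset.filter_subset _ _
      · intro j hj j' hj'
        rw [Finset.mem_filter] at hj hj'
        obtain ⟨hjJ, hij, k, hk, l, hl, ek, el, c1, c2, c3⟩ := hj
        obtain ⟨hjJ', hij', k', hk', l', hl', ek', el', c1', c2', c3'⟩ := hj'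
        exact core_side hij hij' ek el ek' el' (below k hk j' hjJ') (below l hl j' hjJ')
          (below k' hk' j hjJ) (below l' hl' j hjJ) c1 c2 c1' c2' s hs c3 c3'
    have h7 : (J.filter (fun j => a j * X i + b j * Y i + c j = Z i ∧ Mid i j)) ⊆
        (J.filter (fun j => a j * X i + b j * Y i + c j = Z i ∧ side 1 j)) ∪
        (J.filter (fun j => a j * X i + b j * Y i + c j = Z i ∧ side (-1) j)) := by
      intro j hj
      rw [Finset.mem_filter] at hj
      obtain ⟨hjJ, hij, k, hk, l, hl, ek, el, c1, c2⟩ := hj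
      have h8 := hnc j hjJ i hi k hk l hl hij ek el c1 c2
      rw [Finset.mem_union, Finset.mem_filter, Finset.mem_filter]
      rcases lt_or_gt_of_ne h8 with h9 | h9
      · right
        exact ⟨hjJ, hij, k, hk, l, hl, ek, el, c1, c2, by linarith⟩
      · left
        exact ⟨hjJ, hij, k, hk, l, hl, ek, el, c1, c2, by linarith⟩
    calc (J.filter (fun j => a j * X i + b j * Y i + c j = Z i ∧ Mid i j)).card
        ≤ _ := Finset.card_le_card h7
      _ ≤ _ := Finset.card_union_le _ _
      _ ≤ 2 + 2 := Nat.add_le_add (h6 1 one_ne_zero) (h6 (-1) (by norm_num))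
  calc ∑ j ∈ J, (I.filter (fun i => a j * X i + b j * Y i + c j = Z i)).card
      ≤ ∑ j ∈ J, (2 + (I.filter (fun i => a j * X i + b j * Y i + c j = Z i ∧ Mid i j)).card) :=
        Finset.sum_le_sum h1
    _ = 2 * J.card + ∑ j ∈ J, (I.filter
          (fun i => a j * X i + b j * Y i + c j = Z i ∧ Mid i j)).card := by
        rw [Finset.sum_add_distrib, Finset.sum_const, smul_eq_mul, mul_comm]
    _ = 2 * J.card + ∑ i ∈ I, (J.filter
          (fun j => a j * X i + b j * Y i + c j = Z i ∧ Mid i j)).card := by rw [h4]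
    _ ≤ 2 * J.card + ∑ i ∈ I, 4 := Nat.add_le_add_left (Finset.sum_le_sum h5) _
    _ = 2 * J.card + 4 * I.card := by rw [Finset.sum_const, smul_eq_mul, mul_comm 4]

end Pool.Agent.RBP
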