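import Pool.Agent.RBP.Core

/-! # Points on a sphere and supporting planes -/

namespace Pool.Agent.RBP

open Finset

theorem sphere_strict {A B xi yi zi xk yk zk xl yl zl q : ℝ} (hA : 0 < A) (hB : 0 < B)
    (hx : (A + B) * xi = A * xk + B * xl) (hy : (A + B) * yi = A * yk + B * yl)
    (hz : (A + B) * zi = A * zk + B * zl)
    (hi : xi ^ 2 + yi ^ 2 + zi ^ 2 = q) (hk : xk ^ 2 + yk ^ 2 + zk ^ 2 = q)
    (hl : xl ^ 2 + yl ^ 2 + zl ^ 2 = q) : xk = xl ∧ yk = yl ∧ zk = zl := by
  have h1 : A * B * ((xk - xl) ^ 2 + (yk - yl) ^ 2 + (zk - zl) ^ 2) = 0 := by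
    have e2 : (A + B) * ((A + B) * (xi ^ 2 + yi ^ 2 + zi ^ 2)) =
        (A * xk + B * xl) ^ 2 + (A * yk + B * yl) ^ 2 + (A * zk + B * zl) ^ 2 := by
      rw [← hx, ← hy, ← hz]
      ring
    rw [hi] at e2
    linear_combination e2 + (A ^ 2 + A * B) * hk + (B ^ 2 + A * B) * hl
  have h2 : (xk - xl) ^ 2 + (yk - yl) ^ 2 + (zk - zl) ^ 2 = 0 := by
    rcases mul_eq_zero.mp h1 with h | h
    · exact absurd h (mul_pos hA hB).ne'
    · exact h
  have p1 := sq_nonneg (xk - xl)
  have p2 := sq_nonneg (yk - yl)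
  have p3 := sq_nonneg (zk - zl)
  have h3 : (xk - xl) ^ 2 = 0 := le_antisymm (by linarith) p1
  have h4 : (yk - yl) ^ 2 = 0 := le_antisymm (by linarith) p2
  have h5 : (zk - zl) ^ 2 = 0 := le_antisymm (by linarith) p3
  exact ⟨sub_eq_zero.mp (pow_eq_zero_iff two_ne_zero |>.mp h3),
    sub_eq_zero.mp (pow_eq_zero_iff two_ne_zero |>.mp h4),
    sub_eq_zero.mp (pow_eq_zero_iff two_ne_zero |>.mp h5)⟩

open Classical in
/-- Points on a sphere on one side of planes which all face downwards. -/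
theorem half_count {ι κ : Type*} (I : Finset ι) (J : Finset κ) (x1 x2 x3 : ι → ℝ)
    (w1 w2 w3 h : κ → ℝ) (q e f d : ℝ)
    (hX : ∀ i ∈ I, ∀ k ∈ I, i ≠ k → x1 i + e * x2 i + f * x3 i ≠ x1 k + e * x2 k + f * x3 k)
    (hD : ∀ j ∈ J, w3 j - f * w1 j - d * (w2 j - e * w1 j) < 0)
    (hsph : ∀ i ∈ I, x1 i ^ 2 + x2 i ^ 2 + x3 i ^ 2 = q)
    (hinjw : ∀ j ∈ J, ∀ j' ∈ J, w1 j = w1 j' → w2 j = w2 j' → w3 j = w3 j' → j = j')
    (hh : ∀ j ∈ J, 2 * h j = q + w1 j ^ 2 + w2 j ^ 2 + w3 j ^ 2 - 1)
    (below : ∀ i ∈ I, ∀ j ∈ J, w1 j * x1 i + w2 j * x2 i + w3 j * x3 i ≤ h j) :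
    ∑ j ∈ J, (I.filter (fun i => w1 j * x1 i + w2 j * x2 i + w3 j * x3 i = h j)).card ≤
      2 * J.card + 4 * I.card := by
  obtain ⟨D, hDdef⟩ : ∃ D : κ → ℝ, ∀ j, D j = w3 j - f * w1 j - d * (w2 j - e * w1 j) :=
    ⟨_, fun j => rfl⟩
  have hDneg : ∀ j ∈ J, D j < 0 := by
    intro j hj
    rw [hDdef]
    exact hD j hj
  have key : ∀ i j, D j ≠ 0 →
      (-(w1 j) / D j) * (x1 i + e * x2 i + f * x3 i) +
        (-(w2 j - e * w1 j) / D j) * (x2 i + d * x3 i) + h j / D j - x3 i =
      (h j - (w1 j * x1 i + w2 j * x2 i + w3 j * x3 i)) / D j := by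
    intro i j h0
    rw [eq_div_iff h0]
    have t1 : -(w1 j) / D j * D j = -(w1 j) := div_mul_cancel₀ _ h0
    have t2 : -(w2 j - e * w1 j) / D j * D j = -(w2 j - e * w1 j) := div_mul_cancel₀ _ h0
    have t3 : h j / D j * D j = h j := div_mul_cancel₀ _ h0
    linear_combination (x1 i + e * x2 i + f * x3 i) * t1 + (x2 i + d * x3 i) * t2 + t3 -
      x3 i * hDdef j
  have hmain := core_count I J (fun i => x1 i + e * x2 i + f * x3 i) (fun i => x2 i + d * x3 i)
    x3 (fun j => -(w1 j) / D j) (fun j => -(w2 j - e * w1 j) / D j) (fun j => h j / D j) hX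
    (by
      intro i hi j hj
      have h1 := key i j (hDneg j hj).ne
      have h2 : (h j - (w1 j * x1 i + w2 j * x2 i + w3 j * x3 i)) / D j ≤ 0 :=
        div_nonpos_of_nonneg_of_nonpos (sub_nonneg.mpr (below i hi j hj)) (hDneg j hj).le
      linarith)
    (by
      intro j hj i hi k hk l hl e1 e2 e3 c1 c2 hT
      generalize -(w1 j) / D j = a at *
      generalize -(w2 j - e * w1 j) / D j = b at *
      generalize h j / D j = c at *
      have hA : 0 < (x1 l + e * x2 l + f * x3 l) - (x1 i + e * x2 i + f * x3 i) := by linarith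
      have hB : 0 < (x1 i + e * x2 i + f * x3 i) - (x1 k + e * x2 k + f * x3 k) := by linarith
      obtain ⟨Ai, hAi⟩ : ∃ A : ℝ, A =
        (x1 l + e * x2 l + f * x3 l) - (x1 i + e * x2 i + f * x3 i) := ⟨_, rfl⟩
      obtain ⟨Bi, hBi⟩ : ∃ A : ℝ, A =
        (x1 i + e * x2 i + f * x3 i) - (x1 k + e * x2 k + f * x3 k) := ⟨_, rfl⟩
      rw [← hAi] at hA
      rw [← hBi] at hB
      have hXX : (Ai + Bi) * (x1 i + e * x2 i + f * x3 i) =
          Ai * (x1 k + e * x2 k + f * x3 k) + Bi * (x1 l + e * x2 l + f * x3 l) := by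
        rw [hAi, hBi]
        ring
      have hYY : (Ai + Bi) * (x2 i + d * x3 i) = Ai * (x2 k + d * x3 k) +
          Bi * (x2 l + d * x3 l) := by
        rw [hAi, hBi]
        linear_combination hT
      have hZZ : (Ai + Bi) * x3 i = Ai * x3 k + Bi * x3 l := by
        linear_combination a * hXX + b * hYY - (Ai + Bi) * e1 + Ai * e2 + Bi * e3
      have h2 : (Ai + Bi) * x2 i = Ai * x2 k + Bi * x2 l := by
        linear_combination hYY - d * hZZ
      have h1 : (Ai + Bi) * x1 i = Ai * x1 k + Bi * x1 l := by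
        linear_combination hXX - e * h2 - f * hZZ
      obtain ⟨g1, g2, g3⟩ := sphere_strict hA hB h1 h2 hZZ (hsph i hi) (hsph k hk) (hsph l hl)
      rw [g1, g2, g3] at c1
      exact absurd (c1.trans c2) (lt_irrefl _))
    (by
      intro S hS hpar
      by_contra hcon
      push Not at hcon
      obtain ⟨p, s, t, hp, hs, ht, hps, hpt, hst⟩ := Finset.two_lt_card_iff.mp hcon
      have hDp := (hDneg p (hS hp)).ne
      -- proportionality
      have prop : ∀ u ∈ S, w1 u = D u / D p * w1 p ∧ w2 u = D u / D p * w2 p ∧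
          w3 u = D u / D p * w3 p ∧ h u = D u / D p * h p := by
        intro u hu
        have hDu := (hDneg u (hS hu)).ne
        obtain ⟨a1, a2, a3⟩ := hpar u hu p hp
        have b1 : w1 u = D u / D p * w1 p := by
          have a1' : -(w1 u) / D u = -(w1 p) / D p := a1
          rw [div_eq_div_iff hDu hDp] at a1'
          rw [div_mul_eq_mul_div, eq_div_iff hDp]
          linear_combination (-1) * a1'
        have b2 : w2 u = D u / D p * w2 p := by
          have a2' : -(w2 u - e * w1 u) / D u = -(w2 p - e * w1 p) / D p := a2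
          rw [div_eq_div_iff hDu hDp] at a2'
          rw [div_mul_eq_mul_div, eq_div_iff hDp]
          rw [div_mul_eq_mul_div, eq_div_iff hDp] at b1
          linear_combination (-1) * a2' + e * b1
        have b4 : h u = D u / D p * h p := by
          have a3' : h u / D u = h p / D p := a3
          rw [div_eq_div_iff hDu hDp] at a3'
          rw [div_mul_eq_mul_div, eq_div_iff hDp]
          linear_combination a3'
        refine ⟨b1, b2, ?_, b4⟩
        rw [div_mul_eq_mul_div, eq_div_iff hDp]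
        rw [div_mul_eq_mul_div, eq_div_iff hDp] at b1 b2
        linear_combination (f - d * e) * b1 + d * b2 + D u * hDdef p - D p * hDdef u
      have hW : w1 p ^ 2 + w2 p ^ 2 + w3 p ^ 2 ≠ 0 := by
        intro h0
        have p1 := sq_nonneg (w1 p)
        have p2 := sq_nonneg (w2 p)
        have p3 := sq_nonneg (w3 p)
        have z1 : w1 p = 0 := (pow_eq_zero_iff two_ne_zero).mp (le_antisymm (by linarith) p1)
        have z2 : w2 p = 0 := (pow_eq_zero_iff two_ne_zero).mp (le_antisymm (by linarith) p2)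
        have z3 : w3 p = 0 := (pow_eq_zero_iff two_ne_zero).mp (le_antisymm (by linarith) p3)
        apply hDp
        rw [hDdef, z1, z2, z3]
        ring
      have quad : ∀ u ∈ S, u ≠ p →
          q - 1 = D u / D p * (w1 p ^ 2 + w2 p ^ 2 + w3 p ^ 2) := by
        intro u hu hup
        obtain ⟨b1, b2, b3, b4⟩ := prop u hu
        have hlam : D u / D p ≠ 1 := by
          intro h1
          rw [h1, one_mul] at b1 b2 b3
          exact hup (hinjw u (hS hu) p (hS hp) b1 b2 b3)
        have h1 := hh u (hS hu)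
        have h2 := hh p (hS hp)
        generalize D u / D p = lam at *
        rw [b1, b2, b3, b4] at h1
        have h3 : (1 - lam) * (q - 1 - lam * (w1 p ^ 2 + w2 p ^ 2 + w3 p ^ 2)) = 0 := by
          linear_combination lam * h2 - h1
        rcases mul_eq_zero.mp h3 with h4 | h4
        · exact absurd (by linarith) hlam
        · linarith
      have q1 := quad s hs (Ne.symm hps)
      have q2 := quad t ht (Ne.symm hpt)
      have q3 : D s / D p = D t / D p := by
        have : D s / D p * (w1 p ^ 2 + w2 p ^ 2 + w3 p ^ 2) =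
          D t / D p * (w1 p ^ 2 + w2 p ^ 2 + w3 p ^ 2) := q1.symm.trans q2
        exact mul_right_cancel₀ hW this
      obtain ⟨b1, b2, b3, -⟩ := prop s hs
      obtain ⟨c1, c2, c3, -⟩ := prop t ht
      apply hst
      apply hinjw s (hS hs) t (hS ht)
      · rw [b1, c1, q3]
      · rw [b2, c2, q3]
      · rw [b3, c3, q3])
  refine le_trans (le_of_eq ?_) hmain
  apply Finset.sum_congr rfl
  intro j hj
  congr 1
  apply Finset.filter_congr
  intro i hi
  have h1 := key i j (hDneg j hj).ne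
  constructor
  · intro h2
    rw [h2, sub_self, zero_div] at h1
    linarith
  · intro h2
    have h3 : (h j - (w1 j * x1 i + w2 j * x2 i + w3 j * x3 i)) / D j = 0 := by
      rw [← h1]
      linarith
    rcases div_eq_zero_iff.mp h3 with h4 | h4
    · linarith
    · exact absurd h4 (hDneg j hj).ne

end Pool.Agent.RBP
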