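import Pool.Agent.RBP.Core

/-! # Points and circles in the plane -/

namespace Pool.Agent.RBP

open Finset

theorem circle_strict {A B xi yi xk yk xl yl α β γ : ℝ} (hA : 0 < A) (hB : 0 < B)
    (hx : (A + B) * xi = A * xk + B * xl) (hy : (A + B) * yi = A * yk + B * yl)
    (hi : α * xi + β * yi + γ = xi ^ 2 + yi ^ 2)
    (hk : α * xk + β * yk + γ = xk ^ 2 + yk ^ 2)
    (hl : α * xl + β * yl + γ = xl ^ 2 + yl ^ 2) : xk = xl ∧ yk = yl := by
  have h1 : A * B * ((xk - xl) ^ 2 + (yk - yl) ^ 2) = 0 := by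
    have e1 : (A + B) * ((A + B) * (xi ^ 2 + yi ^ 2)) =
        (A + B) * (A * (xk ^ 2 + yk ^ 2) + B * (xl ^ 2 + yl ^ 2)) := by
      congr 1
      rw [← hi, ← hk, ← hl]
      linear_combination α * hx + β * hy
    have e2 : (A + B) * ((A + B) * (xi ^ 2 + yi ^ 2)) =
        (A * xk + B * xl) ^ 2 + (A * yk + B * yl) ^ 2 := by
      rw [← hx, ← hy]
      ring
    linear_combination e2 - e1
  have h2 : (xk - xl) ^ 2 + (yk - yl) ^ 2 = 0 := by
    rcases mul_eq_zero.mp h1 with h | h
    · exact absurd h (mul_pos hA hB).ne'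
    · exact h
  have h3 : (xk - xl) ^ 2 = 0 := le_antisymm (by linarith [sq_nonneg (yk - yl)]) (sq_nonneg _)
  have h4 : (yk - yl) ^ 2 = 0 := le_antisymm (by linarith [sq_nonneg (xk - xl)]) (sq_nonneg _)
  exact ⟨sub_eq_zero.mp (pow_eq_zero_iff two_ne_zero |>.mp h3),
    sub_eq_zero.mp (pow_eq_zero_iff two_ne_zero |>.mp h4)⟩

/-- a generic shear -/
theorem exists_shear {ι : Type*} (I : Finset ι) (x y : ι → ℝ)
    (hinj : ∀ i ∈ I, ∀ k ∈ I, i ≠ k → ¬ (x i = x k ∧ y i = y k)) :
    ∃ e : ℝ, ∀ i ∈ I, ∀ k ∈ I, i ≠ k → x i + e * y i ≠ x k + e * y k := by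
  classical
  obtain ⟨e, he⟩ := Infinite.exists_notMem_finset
    ((I ×ˢ I).image (fun p => -(x p.1 - x p.2) / (y p.1 - y p.2)))
  refine ⟨e, fun i hi k hk hik h => ?_⟩
  by_cases hy : y i = y k
  · apply hinj i hi k hk hik
    refine ⟨?_, hy⟩
    rw [hy] at h
    linarith
  · apply he
    rw [Finset.mem_image]
    refine ⟨(i, k), Finset.mem_product.mpr ⟨hi, hk⟩, ?_⟩
    have h1 : y i - y k ≠ 0 := sub_ne_zero.mpr hy
    change -(x i - x k) / (y i - y k) = e
    rw [div_eq_iff h1]
    linarith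

open Classical in
/-- Points outside discs: the number of incidences with the bounding circles. -/
theorem planar_count {ι κ : Type*} (I : Finset ι) (J : Finset κ)
    (x y : ι → ℝ) (α β γ : κ → ℝ)
    (hinj : ∀ i ∈ I, ∀ k ∈ I, i ≠ k → ¬ (x i = x k ∧ y i = y k))
    (below : ∀ i ∈ I, ∀ j ∈ J, α j * x i + β j * y i + γ j ≤ x i ^ 2 + y i ^ 2)
    (hmult : ∀ S : Finset κ, S ⊆ J → (∀ j ∈ S, ∀ j' ∈ S, α j = α j' ∧ β j = β j' ∧ γ j = γ j') →
      S.card ≤ 2) :
    ∑ j ∈ J, (I.filter (fun i => α j * x i + β j * y i + γ j = x i ^ 2 + y i ^ 2)).card ≤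
      2 * J.card + 4 * I.card := by
  obtain ⟨e, he⟩ := exists_shear I x y hinj
  have key : ∀ i j, α j * (x i + e * y i) + (β j - e * α j) * y i + γ j =
      α j * x i + β j * y i + γ j := by
    intro i j
    ring
  have h := core_count I J (fun i => x i + e * y i) y (fun i => x i ^ 2 + y i ^ 2) α
    (fun j => β j - e * α j) γ he
    (by
      intro i hi j hj
      rw [key]
      exact below i hi j hj)
    (by
      intro j hj i hi k hk l hl e1 e2 e3 c1 c2 hT
      rw [key] at e1 e2 e3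
      have hA : 0 < (x l + e * y l) - (x i + e * y i) := by linarith
      have hB : 0 < (x i + e * y i) - (x k + e * y k) := by linarith
      have hyy : ((x l + e * y l) - (x i + e * y i) + ((x i + e * y i) - (x k + e * y k))) * y i =
          ((x l + e * y l) - (x i + e * y i)) * y k +
          ((x i + e * y i) - (x k + e * y k)) * y l := by
        linear_combination hT
      have hxx : ((x l + e * y l) - (x i + e * y i) + ((x i + e * y i) - (x k + e * y k))) * x i =
          ((x l + e * y l) - (x i + e * y i)) * x k +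
          ((x i + e * y i) - (x k + e * y k)) * x l := by
        linear_combination (-e) * hyy
      obtain ⟨g1, g2⟩ := circle_strict hA hB hxx hyy e1 e2 e3
      rw [g1, g2] at c1
      exact absurd (c1.trans c2) (lt_irrefl _))
    (by
      intro S hS h1
      apply hmult S hS
      intro j hj j' hj'
      obtain ⟨a1, a2, a3⟩ := h1 j hj j' hj'
      refine ⟨a1, ?_, a3⟩
      have a2' : β j - e * α j = β j' - e * α j' := a2
      rw [a1] at a2'
      linarith)
  refine le_trans (le_of_eq ?_) h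
  apply Finset.sum_congr rfl
  intro j hj
  congr 1
  apply Finset.filter_congr
  intro i hi
  rw [key]

end Pool.Agent.RBP
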