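import Pool.Agent.RBP.Planar

/-! # Red points in a plane, blue points in space -/

namespace Pool.Agent.RBP

open Finset

/-- three-space -/
abbrev V3 : Type := EuclideanSpace ℝ (Fin 3)

/-- an orthonormal basis with a prescribed third vector -/
theorem exists_onb (u : V3) (hu : ‖u‖ = 1) :
    ∃ b : OrthonormalBasis (Fin 3) ℝ V3, b 2 = u := by
  have hcard : Module.finrank ℝ V3 = Fintype.card (Fin 3) := by
    simp
  have hv : Orthonormal ℝ (({2} : Set (Fin 3)).domRestrict (fun _ : Fin 3 => u)) := by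
    constructor
    · intro i
      exact hu
    · intro i j hij
      exact absurd (Subtype.ext (i.2.trans j.2.symm)) hij
  obtain ⟨b, hb⟩ := hv.exists_orthonormalBasis_extension_of_card_eq hcard
  exact ⟨b, hb 2 rfl⟩

theorem sq_dist_eq (b : OrthonormalBasis (Fin 3) ℝ V3) (r s : V3) :
    dist r s ^ 2 = (inner ℝ (b 0) r - inner ℝ (b 0) s) ^ 2 +
      (inner ℝ (b 1) r - inner ℝ (b 1) s) ^ 2 + (inner ℝ (b 2) r - inner ℝ (b 2) s) ^ 2 := by
  rw [dist_eq_norm, ← b.sum_sq_norm_inner_right (r - s), Fin.sum_univ_three]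
  simp only [Real.norm_eq_abs, sq_abs, inner_sub_right]

theorem one_le_dist_iff (r s : V3) : 1 ≤ dist r s ↔ 1 ≤ dist r s ^ 2 := by
  constructor
  · intro h
    nlinarith
  · intro h
    by_contra hcon
    push Not at hcon
    have := dist_nonneg (x := r) (y := s)
    nlinarith

theorem dist_eq_one_iff (r s : V3) : dist r s = 1 ↔ dist r s ^ 2 = 1 := by
  constructor
  · intro h
    rw [h, one_pow]
  · intro h
    have h0 := dist_nonneg (x := r) (y := s)
    have h1 : (dist r s - 1) * (dist r s + 1) = 0 := by linear_combination h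
    rcases mul_eq_zero.mp h1 with h2 | h2
    · linarith
    · linarith

open Classical in
theorem plane_count (u : V3) (hu : ‖u‖ = 1) (c : ℝ) (I J : Finset V3)
    (hI : ∀ r ∈ I, inner ℝ u r = c) (hsep : ∀ r ∈ I, ∀ s ∈ J, 1 ≤ dist r s) :
    ∑ s ∈ J, (I.filter (fun r => dist r s = 1)).card ≤ 2 * J.card + 4 * I.card := by
  obtain ⟨b, hb⟩ := exists_onb u hu
  have hr2 : ∀ r ∈ I, inner ℝ (b 2) r = c := by
    intro r hr
    rw [hb]
    exact hI r hr
  -- the key equivalences
  have heq : ∀ r ∈ I, ∀ s : V3, dist r s ^ 2 - 1 =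
      (inner ℝ (b 0) r ^ 2 + inner ℝ (b 1) r ^ 2) -
      (2 * inner ℝ (b 0) s * inner ℝ (b 0) r + 2 * inner ℝ (b 1) s * inner ℝ (b 1) r +
        (1 - inner ℝ (b 0) s ^ 2 - inner ℝ (b 1) s ^ 2 - (c - inner ℝ (b 2) s) ^ 2)) := by
    intro r hr s
    rw [sq_dist_eq b, hr2 r hr]
    ring
  have h := planar_count I J (fun r => inner ℝ (b 0) r) (fun r => inner ℝ (b 1) r)
    (fun s => 2 * inner ℝ (b 0) s) (fun s => 2 * inner ℝ (b 1) s)
    (fun s => 1 - inner ℝ (b 0) s ^ 2 - inner ℝ (b 1) s ^ 2 - (c - inner ℝ (b 2) s) ^ 2)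
    (by
      intro r hr r' hr' hne h
      apply hne
      have e := sq_dist_eq b r r'
      rw [h.1, h.2, hr2 r hr, hr2 r' hr'] at e
      have e' : dist r r' ^ 2 = 0 := by linear_combination e
      exact dist_eq_zero.mp (pow_eq_zero_iff two_ne_zero |>.mp e'))
    (by
      intro r hr s hs
      have h1 := (one_le_dist_iff r s).mp (hsep r hr s hs)
      have h2 := heq r hr s
      linarith)
    (by
      intro S hS hpar
      by_contra hcon
      push Not at hcon
      obtain ⟨p, q, w, hp, hq, hw, hpq, hpw, hqw⟩ := Finset.two_lt_card_iff.mp hcon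
      have key : ∀ s ∈ S, ∀ s' ∈ S, s ≠ s' →
          inner ℝ (b 2) s + inner ℝ (b 2) s' = 2 * c ∧ inner ℝ (b 2) s ≠ inner ℝ (b 2) s' := by
        intro s hs s' hs' hne
        obtain ⟨a1, a2, a3⟩ := hpar s hs s' hs'
        have b1 : inner ℝ (b 0) s = inner ℝ (b 0) s' := by linarith
        have b2 : inner ℝ (b 1) s = inner ℝ (b 1) s' := by linarith
        rw [b1, b2] at a3
        have b4 : inner ℝ (b 2) s ≠ inner ℝ (b 2) s' := by
          intro b3
          apply hne
          have e := sq_dist_eq b s s'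
          rw [b1, b2, b3] at e
          have e' : dist s s' ^ 2 = 0 := by linear_combination e
          exact dist_eq_zero.mp (pow_eq_zero_iff two_ne_zero |>.mp e')
        refine ⟨?_, b4⟩
        have b5 : (inner ℝ (b 2) s - inner ℝ (b 2) s') *
            (inner ℝ (b 2) s + inner ℝ (b 2) s' - 2 * c) = 0 := by linear_combination (-1) * a3
        rcases mul_eq_zero.mp b5 with b6 | b6
        · exact absurd (sub_eq_zero.mp b6) b4
        · linarith
      have k1 := key p hp q hq hpq
      have k2 := key p hp w hw hpw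
      have k3 := key q hq w hw hqw
      apply k3.2
      linarith [k1.1, k2.1])
  refine le_trans (le_of_eq ?_) h
  apply Finset.sum_congr rfl
  intro s hs
  congr 1
  apply Finset.filter_congr
  intro r hr
  rw [dist_eq_one_iff]
  have h2 := heq r hr s
  constructor
  · intro h3
    linarith
  · intro h3
    linarith

end Pool.Agent.RBP
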