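import Pool.Agent.RBP.Plane
import Pool.Agent.RBP.Half

/-! # Red points on a sphere, blue points in space -/

namespace Pool.Agent.RBP

open Finset

/-- a shear in the second and third coordinate -/
theorem exists_shear2 {ι : Type*} (I : Finset ι) (x1 x2 x3 : ι → ℝ)
    (hinj : ∀ i ∈ I, ∀ k ∈ I, i ≠ k → ¬ (x1 i = x1 k ∧ x2 i = x2 k ∧ x3 i = x3 k)) :
    ∃ g : ℝ, ∀ i ∈ I, ∀ k ∈ I, i ≠ k → ¬ (x1 i = x1 k ∧ x2 i + g * x3 i = x2 k + g * x3 k) := by
  classical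
  obtain ⟨g, hg⟩ := Infinite.exists_notMem_finset
    ((I ×ˢ I).image (fun p => -(x2 p.1 - x2 p.2) / (x3 p.1 - x3 p.2)))
  refine ⟨g, fun i hi k hk hik h => ?_⟩
  obtain ⟨h1, h2⟩ := h
  by_cases hy : x3 i = x3 k
  · apply hinj i hi k hk hik
    refine ⟨h1, ?_, hy⟩
    rw [hy] at h2
    linarith
  · apply hg
    rw [Finset.mem_image]
    refine ⟨(i, k), Finset.mem_product.mpr ⟨hi, hk⟩, ?_⟩
    have h3 : x3 i - x3 k ≠ 0 := sub_ne_zero.mpr hy
    change -(x2 i - x2 k) / (x3 i - x3 k) = g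
    rw [div_eq_iff h3]
    linarith

theorem exists_shear_avoid {ι : Type*} (I : Finset ι) (x y : ι → ℝ) (E : Finset ℝ)
    (hinj : ∀ i ∈ I, ∀ k ∈ I, i ≠ k → ¬ (x i = x k ∧ y i = y k)) :
    ∃ e : ℝ, e ∉ E ∧ ∀ i ∈ I, ∀ k ∈ I, i ≠ k → x i + e * y i ≠ x k + e * y k := by
  classical
  obtain ⟨e, he⟩ := Infinite.exists_notMem_finset
    (E ∪ (I ×ˢ I).image (fun p => -(x p.1 - x p.2) / (y p.1 - y p.2)))
  rw [Finset.mem_union, not_or] at he
  refine ⟨e, he.1, fun i hi k hk hik h => ?_⟩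
  by_cases hy : y i = y k
  · apply hinj i hi k hk hik
    refine ⟨?_, hy⟩
    rw [hy] at h
    linarith
  · apply he.2
    rw [Finset.mem_image]
    refine ⟨(i, k), Finset.mem_product.mpr ⟨hi, hk⟩, ?_⟩
    have h1 : y i - y k ≠ 0 := sub_ne_zero.mpr hy
    change -(x i - x k) / (y i - y k) = e
    rw [div_eq_iff h1]
    linarith

/-- the coordinates -/
theorem exists_params {ι κ : Type*} (I : Finset ι) (J : Finset κ) (x1 x2 x3 : ι → ℝ)
    (w1 w2 w3 : κ → ℝ)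
    (hinj : ∀ i ∈ I, ∀ k ∈ I, i ≠ k → ¬ (x1 i = x1 k ∧ x2 i = x2 k ∧ x3 i = x3 k))
    (hw0 : ∀ j ∈ J, ¬ (w1 j = 0 ∧ w2 j = 0 ∧ w3 j = 0)) :
    ∃ e f d : ℝ, (∀ i ∈ I, ∀ k ∈ I, i ≠ k →
      x1 i + e * x2 i + f * x3 i ≠ x1 k + e * x2 k + f * x3 k) ∧
      ∀ j ∈ J, w3 j - f * w1 j - d * (w2 j - e * w1 j) ≠ 0 := by
  classical
  obtain ⟨g, hg⟩ := exists_shear2 I x1 x2 x3 hinj
  obtain ⟨e, he, he2⟩ := exists_shear_avoid I x1 (fun i => x2 i + g * x3 i)
    (J.image (fun j => w2 j / w1 j)) hg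
  obtain ⟨d, hd⟩ := Infinite.exists_notMem_finset
    (J.image (fun j => (w3 j - e * g * w1 j) / (w2 j - e * w1 j)))
  refine ⟨e, e * g, d, ?_, ?_⟩
  · intro i hi k hk hik h
    apply he2 i hi k hk hik
    linear_combination h
  · intro j hj h
    by_cases h1 : w2 j - e * w1 j = 0
    · rw [h1, mul_zero, sub_zero] at h
      by_cases h2 : w1 j = 0
      · rw [h2, mul_zero, sub_zero] at h h1
        exact hw0 j hj ⟨h2, h1, h⟩
      · apply he
        rw [Finset.mem_image]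
        refine ⟨j, hj, ?_⟩
        rw [div_eq_iff h2]
        linarith
    · apply hd
      rw [Finset.mem_image]
      refine ⟨j, hj, ?_⟩
      rw [div_eq_iff h1]
      linarith

open Classical in
/-- Points on a sphere and supporting planes. -/
theorem sphere_count' {ι κ : Type*} (I : Finset ι) (J : Finset κ) (x1 x2 x3 : ι → ℝ)
    (w1 w2 w3 h : κ → ℝ) (q : ℝ)
    (hinj : ∀ i ∈ I, ∀ k ∈ I, i ≠ k → ¬ (x1 i = x1 k ∧ x2 i = x2 k ∧ x3 i = x3 k))
    (hw0 : ∀ j ∈ J, ¬ (w1 j = 0 ∧ w2 j = 0 ∧ w3 j = 0))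
    (hsph : ∀ i ∈ I, x1 i ^ 2 + x2 i ^ 2 + x3 i ^ 2 = q)
    (hinjw : ∀ j ∈ J, ∀ j' ∈ J, w1 j = w1 j' → w2 j = w2 j' → w3 j = w3 j' → j = j')
    (hh : ∀ j ∈ J, 2 * h j = q + w1 j ^ 2 + w2 j ^ 2 + w3 j ^ 2 - 1)
    (below : ∀ i ∈ I, ∀ j ∈ J, w1 j * x1 i + w2 j * x2 i + w3 j * x3 i ≤ h j) :
    ∑ j ∈ J, (I.filter (fun i => w1 j * x1 i + w2 j * x2 i + w3 j * x3 i = h j)).card ≤
      2 * J.card + 8 * I.card := by
  obtain ⟨e, f, d, hX, hD⟩ := exists_params I J x1 x2 x3 w1 w2 w3 hinj hw0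
  have hsub1 : J.filter (fun j => w3 j - f * w1 j - d * (w2 j - e * w1 j) < 0) ⊆ J :=
    Finset.filter_subset _ _
  have hsub2 : J.filter (fun j => ¬ (w3 j - f * w1 j - d * (w2 j - e * w1 j) < 0)) ⊆ J :=
    Finset.filter_subset _ _
  have m1 := half_count I (J.filter (fun j => w3 j - f * w1 j - d * (w2 j - e * w1 j) < 0))
    x1 x2 x3 w1 w2 w3 h q e f d hX
    (fun j hj => (Finset.mem_filter.mp hj).2) hsph
    (fun j hj j' hj' => hinjw j (hsub1 hj) j' (hsub1 hj'))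
    (fun j hj => hh j (hsub1 hj)) (fun i hi j hj => below i hi j (hsub1 hj))
  have m2 := half_count I (J.filter (fun j => ¬ (w3 j - f * w1 j - d * (w2 j - e * w1 j) < 0)))
    x1 x2 (fun i => -(x3 i)) w1 w2 (fun j => -(w3 j)) h q e (-f) (-d)
    (by
      intro i hi k hk hik h0
      apply hX i hi k hk hik
      linear_combination h0)
    (by
      intro j hj
      have h1 := (Finset.mem_filter.mp hj).2
      have h2 := hD j (hsub2 hj)
      have h3 : 0 < w3 j - f * w1 j - d * (w2 j - e * w1 j) :=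
        lt_of_le_of_ne (not_lt.mp h1) (Ne.symm h2)
      linarith)
    (by
      intro i hi
      rw [← hsph i hi]
      ring)
    (fun j hj j' hj' a1 a2 a3 => hinjw j (hsub2 hj) j' (hsub2 hj') a1 a2 (neg_inj.mp a3))
    (by
      intro j hj
      rw [hh j (hsub2 hj)]
      ring)
    (by
      intro i hi j hj
      have := below i hi j (hsub2 hj)
      linarith)
  have m3 : ∑ j ∈ J, (I.filter (fun i => w1 j * x1 i + w2 j * x2 i + w3 j * x3 i = h j)).card =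
      ∑ j ∈ J.filter (fun j => w3 j - f * w1 j - d * (w2 j - e * w1 j) < 0),
        (I.filter (fun i => w1 j * x1 i + w2 j * x2 i + w3 j * x3 i = h j)).card +
      ∑ j ∈ J.filter (fun j => ¬ (w3 j - f * w1 j - d * (w2 j - e * w1 j) < 0)),
        (I.filter (fun i => w1 j * x1 i + w2 j * x2 i + w3 j * x3 i = h j)).card :=
    (Finset.sum_filter_add_sum_filter_not J _ _).symm
  have m4 : ∑ j ∈ J.filter (fun j => ¬ (w3 j - f * w1 j - d * (w2 j - e * w1 j) < 0)),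
        (I.filter (fun i => w1 j * x1 i + w2 j * x2 i + w3 j * x3 i = h j)).card =
      ∑ j ∈ J.filter (fun j => ¬ (w3 j - f * w1 j - d * (w2 j - e * w1 j) < 0)),
        (I.filter (fun i => w1 j * x1 i + w2 j * x2 i + -(w3 j) * -(x3 i) = h j)).card := by
    apply Finset.sum_congr rfl
    intro j hj
    congr 1
    apply Finset.filter_congr
    intro i hi
    rw [neg_mul_neg]
  have m5 : (J.filter (fun j => w3 j - f * w1 j - d * (w2 j - e * w1 j) < 0)).card +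
      (J.filter (fun j => ¬ (w3 j - f * w1 j - d * (w2 j - e * w1 j) < 0))).card = J.card :=
    Finset.card_filter_add_card_filter_not _
  rw [m3, m4]
  have m6 := Nat.add_le_add m1 m2
  refine le_trans m6 ?_
  omega

open Classical in
/-- Red points on a sphere. -/
theorem sphere_count (o : V3) (ρ : ℝ) (I J : Finset V3)
    (hI : ∀ r ∈ I, dist r o = ρ) (hsep : ∀ r ∈ I, ∀ s ∈ J, 1 ≤ dist r s) :
    ∑ s ∈ J, (I.filter (fun r => dist r s = 1)).card ≤ 2 * J.card + 9 * I.card := by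
  obtain ⟨u, hu⟩ : ∃ u : V3, ‖u‖ = 1 := ⟨EuclideanSpace.single 0 1, by simp⟩
  obtain ⟨b, -⟩ := exists_onb u hu
  have hinj : ∀ r s : V3, inner ℝ (b 0) r - inner ℝ (b 0) o = inner ℝ (b 0) s - inner ℝ (b 0) o →
      inner ℝ (b 1) r - inner ℝ (b 1) o = inner ℝ (b 1) s - inner ℝ (b 1) o →
      inner ℝ (b 2) r - inner ℝ (b 2) o = inner ℝ (b 2) s - inner ℝ (b 2) o → r = s := by
    intro r s h1 h2 h3
    have e := sq_dist_eq b r s
    have e' : dist r s ^ 2 = 0 := by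
      rw [e]
      have g1 : inner ℝ (b 0) r - inner ℝ (b 0) s = 0 := by linarith
      have g2 : inner ℝ (b 1) r - inner ℝ (b 1) s = 0 := by linarith
      have g3 : inner ℝ (b 2) r - inner ℝ (b 2) s = 0 := by linarith
      rw [g1, g2, g3]
      ring
    exact dist_eq_zero.mp (pow_eq_zero_iff two_ne_zero |>.mp e')
  have hsph : ∀ r ∈ I, (inner ℝ (b 0) r - inner ℝ (b 0) o) ^ 2 +
      (inner ℝ (b 1) r - inner ℝ (b 1) o) ^ 2 + (inner ℝ (b 2) r - inner ℝ (b 2) o) ^ 2 =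
      ρ ^ 2 := by
    intro r hr
    rw [← sq_dist_eq b, hI r hr]
  have heq : ∀ r ∈ I, ∀ s : V3, dist r s ^ 2 - 1 =
      2 * ((ρ ^ 2 + (inner ℝ (b 0) s - inner ℝ (b 0) o) ^ 2 +
        (inner ℝ (b 1) s - inner ℝ (b 1) o) ^ 2 + (inner ℝ (b 2) s - inner ℝ (b 2) o) ^ 2 - 1) / 2
        - ((inner ℝ (b 0) s - inner ℝ (b 0) o) * (inner ℝ (b 0) r - inner ℝ (b 0) o) +
        (inner ℝ (b 1) s - inner ℝ (b 1) o) * (inner ℝ (b 1) r - inner ℝ (b 1) o) +
        (inner ℝ (b 2) s - inner ℝ (b 2) o) * (inner ℝ (b 2) r - inner ℝ (b 2) o))) := by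
    intro r hr s
    rw [sq_dist_eq b, ← hsph r hr]
    ring
  have hmain := sphere_count' I (J.erase o)
    (fun r => inner ℝ (b 0) r - inner ℝ (b 0) o) (fun r => inner ℝ (b 1) r - inner ℝ (b 1) o)
    (fun r => inner ℝ (b 2) r - inner ℝ (b 2) o)
    (fun s => inner ℝ (b 0) s - inner ℝ (b 0) o) (fun s => inner ℝ (b 1) s - inner ℝ (b 1) o)
    (fun s => inner ℝ (b 2) s - inner ℝ (b 2) o)
    (fun s => (ρ ^ 2 + (inner ℝ (b 0) s - inner ℝ (b 0) o) ^ 2 +
        (inner ℝ (b 1) s - inner ℝ (b 1) o) ^ 2 + (inner ℝ (b 2) s - inner ℝ (b 2) o) ^ 2 - 1) / 2)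
    (ρ ^ 2)
    (fun r _ s _ hne h => hne (hinj r s h.1 h.2.1 h.2.2))
    (by
      intro s hs h
      apply Finset.ne_of_mem_erase hs
      apply hinj s o
      · rw [h.1, sub_self]
      · rw [h.2.1, sub_self]
      · rw [h.2.2, sub_self])
    hsph
    (fun s _ s' _ h1 h2 h3 => hinj s s' h1 h2 h3)
    (by
      intro s hs
      ring)
    (by
      intro r hr s hs
      have h1 := (one_le_dist_iff r s).mp (hsep r hr s (Finset.mem_of_mem_erase hs))
      have h2 := heq r hr s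
      change _ ≤ (ρ ^ 2 + (inner ℝ (b 0) s - inner ℝ (b 0) o) ^ 2 +
        (inner ℝ (b 1) s - inner ℝ (b 1) o) ^ 2 + (inner ℝ (b 2) s - inner ℝ (b 2) o) ^ 2 - 1) / 2
      linarith)
  have hmain' : ∑ s ∈ J.erase o, (I.filter (fun r => dist r s = 1)).card ≤
      2 * (J.erase o).card + 8 * I.card := by
    refine le_trans (le_of_eq ?_) hmain
    apply Finset.sum_congr rfl
    intro s hs
    congr 1
    apply Finset.filter_congr
    intro r hr
    rw [dist_eq_one_iff]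
    have h2 := heq r hr s
    constructor
    · intro h3
      linarith
    · intro h3
      have h3' : _ = (ρ ^ 2 + (inner ℝ (b 0) s - inner ℝ (b 0) o) ^ 2 +
        (inner ℝ (b 1) s - inner ℝ (b 1) o) ^ 2 + (inner ℝ (b 2) s - inner ℝ (b 2) o) ^ 2 - 1) / 2
        := h3
      linarith
  by_cases ho : o ∈ J
  · rw [← Finset.sum_erase_add J _ ho]
    have h1 : (I.filter (fun r => dist r o = 1)).card ≤ I.card := Finset.card_filter_le _ _
    have h2 : (J.erase o).card ≤ J.card := Finset.card_erase_le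
    omega
  · rw [Finset.erase_eq_of_notMem ho] at hmain'
    omega

end Pool.Agent.RBP
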